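import Pool.Agent.MP_6a4325_al.H62.Spec

/-!
The step of the chain of stages.
-/

namespace Pool.Agent.MP_6a4325_al.H51

open H62

theorem exists_exp (C : Type) [CommGroup C] [h : Group.FG C] :
    ∃ e : ℕ, 0 < e ∧ ∀ a : C, IsOfFinOrder a → a ^ e = 1 := by
  have : Module.Finite ℤ (Additive C) := Module.Finite.iff_addGroup_fg.2 inferInstance
  have h1 : (CommGroup.torsion C).FG := by
    exact (Subgroup.fg_iff_add_fg _).2 ((Submodule.fg_iff_addSubgroup_fg _).1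
      (IsNoetherian.noetherian (CommGroup.torsion C).toAddSubgroup.toIntSubmodule))
  have := (Group.fg_iff_subgroup_fg _).2 h1
  have := CommGroup.finite_of_fg_isMulTorsion (CommGroup.torsion C) fun a =>
    (CommGroup.torsion C).subtype_injective.isOfFinOrder_iff.1 a.2
  exact ⟨_, Nat.card_pos, fun a ha =>
    congrArg Subtype.val (pow_card_eq_one' (x := (⟨a, ha⟩ : CommGroup.torsion C)))⟩

theorem glue {G : Type} [Group G] (s : St G) (H' T' : Subgroup G) (θ' : T' →* ℚˣ) (h1 : s.H ≤ H')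
    (h2 : T' ≤ H') (h3 : ∀ h ∈ H', ∀ t ∈ T', h * t * h⁻¹ ∈ T') (h4 : (T'.subgroupOf H').FiniteIndex)
    (h5 : Function.Injective θ') (h6 : ∀ t : T', t.1 ∈ s.H → ∃ h : t.1 ∈ s.T, θ' t = s.θ ⟨t, h⟩) :
    ∃ s' : St G, s'.H = H' ∧ s.ann ⊆ s'.ann := by
  classical
  let f : G → ℚ := fun g =>
    if h : ∃ t : T', t.1⁻¹ * g ∈ s.H then θ' h.choose * s.f (h.choose.1⁻¹ * g) else 0
  have f0 : ∀ g, (¬ ∃ t : T', t.1⁻¹ * g ∈ s.H) → f g = 0 := fun g h => dif_neg h
  have f1 : ∀ (t : T'), ∀ h ∈ s.H, f (t * h) = θ' t * s.f h := fun t h hh => by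
    have e : ∃ u : T', u.1⁻¹ * (t * h) ∈ s.H := ⟨t, by simpa using hh⟩
    obtain ⟨k, hk⟩ := h6 (e.choose⁻¹ * t) (by
      simpa [mul_assoc] using s.H.mul_mem e.choose_spec (s.H.inv_mem hh))
    have := s.equi ⟨_, k⟩ h
    rw [← hk] at this
    rw [show f (t * h) = _ from dif_pos e, ← mul_assoc]
    change _ * s.f ((e.choose⁻¹ * t).1 * h) = _
    rw [this, ← mul_assoc, ← Units.val_mul, ← map_mul, mul_inv_cancel_left]
  refine ⟨⟨H', T', θ', f, h2, h3, h4, h5, by simpa [s.one] using f1 1 1 s.H.one_mem, fun t g => ?_,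
    fun g hg => f0 g fun ⟨t, ht⟩ => hg (by simpa using H'.mul_mem (h2 t.2) (h1 ht))⟩, rfl,
    fun x hx => ⟨fun g hg => h1 (hx.1 g hg), fun g => ?_⟩⟩
  · by_cases e : ∃ u : T', u.1⁻¹ * g ∈ s.H
    · obtain ⟨u, hu⟩ := e
      have k1 := f1 u _ hu
      have k2 := f1 (t * u) _ hu
      simp only [Subgroup.coe_mul, mul_assoc, mul_inv_cancel_left, map_mul, Units.val_mul] at k1 k2
      rw [k2, k1]
    · rw [f0 g e, f0 _ fun ⟨u, hu⟩ => e ⟨t⁻¹ * u, by simpa [mul_assoc] using hu⟩, mul_zero]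
  · by_cases e : ∃ u : T', u.1⁻¹ * g ∈ s.H
    · obtain ⟨u, hu⟩ := e
      refine Eq.trans ?_ ((congrArg ((θ' u : ℚ) * ·) (hx.2 (u.1⁻¹ * g))).trans (mul_zero _))
      rw [Finsupp.mul_sum]
      refine Finset.sum_congr rfl fun h hh => ?_
      have := f1 u _ (s.H.mul_mem hu (hx.1 h hh))
      simp only [mul_assoc, mul_inv_cancel_left] at this ⊢
      change _ * f _ = _
      rw [this, mul_left_comm]
    · refine Finset.sum_eq_zero fun h hh => ?_
      change _ * f _ = _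
      rw [f0 _ fun ⟨u, hu⟩ => e ⟨u, by
        simpa [mul_assoc] using s.H.mul_mem hu (s.H.inv_mem (hx.1 h hh))⟩, mul_zero]

theorem step (hE : SExtCh) : SStep := by
  intro G _ s H' h1 h2 ⟨A, a1, a2, a3⟩
  have := (Group.fg_iff_subgroup_fg _).2 h2
  let _ : CommGroup A := ⟨fun a b => Subtype.ext (a3 _ a.2 _ b.2)⟩
  let ι : A →* G := H'.subtype.comp A.subtype
  have i1 : Function.Injective ι := H'.subtype_injective.comp A.subtype_injective
  obtain ⟨e, e1, e2⟩ := exists_exp A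
  obtain ⟨k, k1, k2⟩ := exists_exp (A ⧸ s.T.comap ι)
  let D := (powMonoidHom (α := A) (e * k)).range
  have := Subgroup.finiteIndex_range_powMonoidHom_of_fg A (Nat.mul_pos e1 k1).ne'
  have d1 : ∀ a : D, IsOfFinOrder a → a = 1 := by
    rintro ⟨_, a, rfl⟩ ha
    have := e2 a ((D.subtype.isOfFinOrder ha).of_pow (Nat.mul_pos e1 k1).ne')
    exact Subtype.ext (by simp [pow_mul, this])
  have d2 : ∀ a : D, ι a ∈ s.H → ι a ∈ s.T := by
    rintro ⟨_, a, rfl⟩ ha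
    obtain ⟨j, j1, -, j2⟩ := Subgroup.exists_pow_mem_of_relIndex_ne_zero s.fin.1 ha
    have := k2 a (isOfFinOrder_iff_pow_eq_one.2 ⟨e * k * j, by positivity, by
      rw [← QuotientGroup.mk_pow, QuotientGroup.eq_one_iff, pow_mul]
      simpa using j2.1⟩)
    rw [← QuotientGroup.mk_pow, QuotientGroup.eq_one_iff] at this
    simpa [mul_comm e, pow_mul] using s.T.pow_mem this e
  obtain ⟨m, Θ, m1, m2, m3⟩ := hE D inferInstance d1 (s.T.comap (ι.comp D.subtype))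
    (s.θ.comp ((ι.comp D.subtype).subgroupComap s.T)) (s.inj.comp fun a b h =>
      Subtype.ext (D.subtype_injective (i1 (congrArg (fun t : s.T => t.1) h))))
  let φ : D →* G := (ι.comp D.subtype).comp (powMonoidHom m)
  have p1 : Function.Injective φ := (injective_iff_map_eq_one _).2 fun a ha =>
    d1 a (isOfFinOrder_iff_pow_eq_one.2 ⟨m, m1, D.subtype_injective (i1 (by simpa [φ] using ha))⟩)
  have p2 : ∀ a : A, ι (a ^ (e * k * m)) ∈ φ.range := fun a => ⟨⟨_, a, rfl⟩, by simp [φ, pow_mul]⟩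
  refine glue s H' φ.range (Θ.comp (MonoidHom.ofInjective p1).symm.toMonoidHom) h1 ?_ ?_ ?_
    (m2.comp (MulEquiv.injective _)) ?_
  · rintro _ ⟨a, rfl⟩
    exact (a ^ m).1.1.2
  · rintro h hh _ ⟨⟨_, a, rfl⟩, rfl⟩
    simpa [φ, ι, pow_mul] using p2 ⟨_, a1.conj_mem _ a.2 ⟨h, hh⟩⟩
  · have := Subgroup.finiteIndex_range_powMonoidHom_of_fg A (Nat.mul_pos (Nat.mul_pos e1 k1) m1).ne'
    have : ((powMonoidHom (α := A) (e * k * m)).range.map A.subtype).FiniteIndex :=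
      ⟨by rw [Subgroup.index_map_subtype]; exact mul_ne_zero this.1 a2.1⟩
    refine Subgroup.finiteIndex_of_le (H := (powMonoidHom (α := A) (e * k * m)).range.map A.subtype) ?_
    rintro _ ⟨_, ⟨a, rfl⟩, rfl⟩
    exact p2 a
  · rintro ⟨_, a, rfl⟩ ha
    refine ⟨d2 (a ^ m) ha, Eq.trans (congrArg Θ ?_) (m3 a (d2 (a ^ m) ha))⟩
    exact p1 (MonoidHom.apply_ofInjective_symm p1 _)

end Pool.Agent.MP_6a4325_al.H51
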